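import Mathlib
import Pool.Agent.Y99.JD.Ext

/-!
# Jordan decomposition of measurable Hermitian characteristic functions, with equality of norms,
on the whole line

The starting theorem `Jordan` gives a decomposition of a Hermitian measurable `f ∈ R_A` as a
difference of two measurable non-negative elements, without control of the norms. Here the
decomposition is norm minimal, `‖f‖_A = f₊(0) + f₋(0)`, and `f₊`, `f₋` are restrictions of
measurable positive definite functions on the whole line.

Outline. Represent `f` on the Bohr compactification by a density `u` of total mass `‖f‖_A` and
project `u` on the closed subspace of `L²` of the null densities (all coefficients vanish almost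
everywhere): `u = p + q`. The null densities are stable under multiplication by bounded functions, so
`p` and `q` have disjoint supports and the masses add up. The transform of `q` is almost everywhere
equal on `(-A, A)` to the transform of a density on the line (averaged Riemann sums); working in the
Hilbert sum of the two `L²` spaces, where the null vectors are those of the first summand, one sees
that they agree everywhere on `(-A, A)`. Hence the transform of `q` is a continuous element of `R_A`
of norm at most the mass of `q`, so it has a representing density on the line of no larger mass.
-/

set_option autoImplicit false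

open MeasureTheory Pool.Agent.H731R2 Pool.Agent.Y99.JD

/-- Let `0 < A ≤ ∞`. Every Hermitian Lebesgue measurable `f ∈ R_A` is on `(-A, A)` the difference of
two functions `F₁`, `F₂` on the line, whose restrictions to every interval `(-B, B)`, `B ≤ ∞` (in
particular to `(-A, A)` and to the whole line) are Lebesgue measurable characteristic functions of
non-negative functionals, with `F₁(0) + F₂(0) = ‖f‖_A`. -/
theorem Pool.Agent.Results.MP_b1ee0a_an.NormJordan.result (A : EReal) (_hA : 0 < A)
    (f : Dom A → ℂ) (hf : MemR f) (hm : AEMeasurable f (leb A)) (hH : Hermitian f) :
    ∃ F₁ F₂ : ℝ → ℂ,
      (∀ B : EReal, (MemP (fun l : Dom B => F₁ l) ∧ AEMeasurable (fun l : Dom B => F₁ l) (leb B)) ∧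
        (MemP (fun l : Dom B => F₂ l) ∧ AEMeasurable (fun l : Dom B => F₂ l) (leb B))) ∧
      (∀ l : Dom A, f l = F₁ l - F₂ l) ∧ F₁ 0 + F₂ 0 = (normR f : ℂ) :=
  jordan_norm hf hm hH
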