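import Mathlib
import Pool.Agent.Y99.JD.Struct

/-!
# Structure of measurable characteristic functions of bounded functionals

The complex counterpart of `NormJordan`: the splitting `f = f_c + f_m` of an element of `R_A^m` into
a continuous and an almost everywhere vanishing element, with additive norm, extends to the whole
line without increase of norm.
-/

set_option autoImplicit false

open MeasureTheory Pool.Agent.H731R2 Pool.Agent.Y99.JD

/-- Let `0 < A ≤ ∞`. Every Lebesgue measurable `f ∈ R_A` is on `(-A, A)` the sum of a continuous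
function `Fc` on the line and of a function `Fm` on the line which vanishes almost everywhere, such
that for every `A ≤ B ≤ ∞` the restrictions to `(-B, B)` lie in `R_B` and
`‖Fc‖_B + ‖Fm‖_B = ‖Fc + Fm‖_B = ‖f‖_A`. -/
theorem Pool.Agent.Results.MP_b1ee0a_an.NormSplitting.result (A : EReal) (_hA : 0 < A)
    (f : Dom A → ℂ) (hf : MemR f) (hm : AEMeasurable f (leb A)) :
    ∃ Fc Fm : ℝ → ℂ, Continuous Fc ∧ (∀ᵐ x : ℝ, Fm x = 0) ∧ (∀ l : Dom A, f l = Fc l + Fm l) ∧
      ∀ B : EReal, A ≤ B → MemR (fun l : Dom B => Fc l) ∧ MemR (fun l : Dom B => Fm l) ∧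
        normR (fun l : Dom B => Fc l) + normR (fun l : Dom B => Fm l) = normR f ∧
        normR (fun l : Dom B => Fc l + Fm l) = normR f :=
  structure_thm hf hm
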